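import Pool.Agent.Lib.MP_1d1573_an.Stmt
import Pool.Agent.Lib.MP_1d1573_an.Bridge

set_option autoImplicit false

open Pool.Agent.Lib.MP1d1573

/-- Full positive answer to Q1: for every net `N` in a real normed space `X` (completeness and
separability of `X` are not needed) and every base point `b` of `N`, the space `Lip₀(N)` is
linearly isomorphic to the `ℓ_∞` sum of countably many copies of itself: there is a linear
bijection which is bounded and has a bounded inverse. -/
theorem Pool.Agent.Results.MP_1d1573_an.NetLinftySum.result
    (X : Type*) [NormedAddCommGroup X] [NormedSpace ℝ X] (N : Set X) (hN : IsNet N) (b : N) :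
    LinIso (lip0Norm : lipSubmodule N b → ℝ) (linfNorm : linfSum N b → ℝ) :=
  Pool.Agent.Lib.MP1d1573.main_elementary X N hN b
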